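import Pool.Agent.H436Z.DenseD

set_option autoImplicit false

namespace Pool.Agent.Results.MP_523900_gt.Asymptotic

open Pool.Agent.H436Z.Stein Pool.Agent.H436Z.Dense

/-- For every convex body `K` in Euclidean 3-space, the boundary `S` has finite area `A` and
`ε · L_S(ε) → A / 2` as `ε → 0+`. -/
theorem result : ∀ K : Set E3, IsCompact K → Convex ℝ K → (interior K).Nonempty →
    area (frontier K) < ⊤ ∧
      Filter.Tendsto (fun ε : ℝ => ENNReal.ofReal ε * shortestDense (frontier K) ε)
        (nhdsWithin 0 (Set.Ioi 0)) (nhds (area (frontier K) / 2)) :=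
  fun _ hK hc hi => convex_main hK hc hi

end Pool.Agent.Results.MP_523900_gt.Asymptotic
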